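import Mathlib

set_option autoImplicit false

namespace Pool.Agent.Results.MP_31c4fb_co.LargeModulus

/-- The number `Φ(n,a)` of permutations `π` for which the sums `a (π i) + i` are pairwise distinct in
the integers modulo `n`. -/
noncomputable def Phi (n k : ℕ) (a : Fin k → ZMod n) : ℕ :=
  {π : Equiv.Perm (Fin k) |
    Function.Injective (fun i : Fin k => a (π i) + (((i : ℕ)) : ZMod n))}.ncard

/-- The minimum `N(n,k)` of `Φ(n,a)` over all vectors `a`. -/
noncomputable def N (n k : ℕ) : ℕ := ⨅ a : Fin k → ZMod n, Phi n k a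

theorem exists_window (m k : ℕ) (hm : k * (k - 1) < m) (a : Fin k → ZMod m) :
    ∃ c : ZMod m, ∀ (p : Fin k) (t : ℕ), t < k - 1 → a p ≠ c + (t : ZMod m) := by
  classical
  have : NeZero m := ⟨by omega⟩
  by_contra hcon
  push Not at hcon
  have hsurj : Function.Surjective
      (fun x : Fin k × Fin (k - 1) => a x.1 - (((x.2 : ℕ)) : ZMod m)) := by
    intro c
    obtain ⟨p, t, ht, h⟩ := hcon c
    exact ⟨(p, ⟨t, ht⟩), by simp [h]⟩
  have hcard := Fintype.card_le_of_surjective _ hsurj
  rw [Fintype.card_prod, Fintype.card_fin, Fintype.card_fin, ZMod.card] at hcard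
  omega

theorem exists_lift (m k : ℕ) (hm : k * (k - 1) < m) (a : Fin k → ZMod m) :
    ∃ (c : ZMod m) (b : Fin k → ℕ), (∀ p, b p + k ≤ m) ∧ ∀ p, a p = c + (b p : ZMod m) := by
  have : NeZero m := ⟨by omega⟩
  obtain ⟨c, hc⟩ := exists_window m k hm a
  refine ⟨c + ((k - 1 : ℕ) : ZMod m), fun p => (a p - (c + ((k - 1 : ℕ) : ZMod m))).val, ?_, ?_⟩
  · intro p
    by_contra hlt
    have hlt' : m < (a p - (c + ((k - 1 : ℕ) : ZMod m))).val + k := by
      simpa using hlt
    have hv : (a p - (c + ((k - 1 : ℕ) : ZMod m))).val < m := ZMod.val_lt _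
    set v := (a p - (c + ((k - 1 : ℕ) : ZMod m))).val with hvdef
    have hcast : ((v : ℕ) : ZMod m) = a p - (c + ((k - 1 : ℕ) : ZMod m)) := by
      rw [hvdef, ZMod.natCast_val, ZMod.cast_id]
    refine hc p (v + (k - 1) - m) (by omega) ?_
    have h1 : ((v + (k - 1) - m : ℕ) : ZMod m) = (v : ZMod m) + ((k - 1 : ℕ) : ZMod m) := by
      have h2 : ((v + (k - 1) - m + m : ℕ) : ZMod m) = ((v + (k - 1) : ℕ) : ZMod m) := by
        congr 1
        omega
      rw [Nat.cast_add, ZMod.natCast_self, add_zero] at h2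
      rw [h2, Nat.cast_add]
    rw [h1, hcast]
    ring
  · intro p
    rw [ZMod.natCast_val, ZMod.cast_id]
    ring

theorem phi_lift {m k : ℕ} (c : ZMod m) (b : Fin k → ℕ) (hb : ∀ p, b p + k ≤ m)
    (a : Fin k → ZMod m) (ha : ∀ p, a p = c + (b p : ZMod m)) :
    Phi m k a = {π : Equiv.Perm (Fin k) |
      Function.Injective (fun i : Fin k => b (π i) + (i : ℕ))}.ncard := by
  unfold Phi
  congr 1
  ext π
  simp only [Set.mem_ofPred_eq]
  constructor
  · intro h i j hij
    apply h
    simp only at hij ⊢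
    rw [ha, ha, add_assoc, add_assoc, ← Nat.cast_add, ← Nat.cast_add, hij]
  · intro h i j hij
    apply h
    simp only at hij ⊢
    rw [ha, ha, add_assoc, add_assoc, ← Nat.cast_add, ← Nat.cast_add] at hij
    have h1 := add_left_cancel hij
    rw [ZMod.natCast_eq_natCast_iff'] at h1
    have hi := hb (π i)
    have hj := hb (π j)
    have := i.isLt
    have := j.isLt
    rwa [Nat.mod_eq_of_lt (by omega), Nat.mod_eq_of_lt (by omega)] at h1

theorem phi_reduce_le (n k : ℕ) (b : Fin k → ℕ) :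
    Phi n k (fun p => (b p : ZMod n)) ≤ {π : Equiv.Perm (Fin k) |
      Function.Injective (fun i : Fin k => b (π i) + (i : ℕ))}.ncard := by
  unfold Phi
  apply Set.ncard_le_ncard _ (Set.toFinite _)
  intro π h i j hij
  apply h
  simp only at hij ⊢
  rw [← Nat.cast_add, ← Nat.cast_add, hij]

/-- For all `k`, all `n ≥ 1` and all `m > k(k-1)` we have `N(n,k) ≤ N(m,k)`. -/
theorem result : ∀ k n m : ℕ, 0 < n → k * (k - 1) < m → N n k ≤ N m k := by
  intro k n m _ hm
  unfold N
  have : Nonempty (Fin k → ZMod m) := ⟨fun _ => 0⟩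
  refine le_ciInf fun a => ?_
  obtain ⟨c, b, hb, ha⟩ := exists_lift m k hm a
  rw [phi_lift c b hb a ha]
  exact le_trans (ciInf_le (OrderBot.bddBelow _) (fun p => (b p : ZMod n))) (phi_reduce_le n k b)

end Pool.Agent.Results.MP_31c4fb_co.LargeModulus
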